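import Pool.Agent.Helper4.P11.StD
import Pool.Agent.Helper84.P11.D1

/-!
# Project P11, levels `11^n`, module Itr: iteration of the leading forms

Adapted from `Pool/Agent/Helper51/T7/M_Itr.lean`.
-/

set_option autoImplicit false

namespace Pool.Agent.Helper45.P11

open Pool.Agent.Helper14.CV (Homog EqC act Tl)
open Pool.Agent.Helper28.WK (SymP Tw evw Ok)
open Pool.Agent.Helper84.P11
open Pool.Agent.Helper2.P11 (pf11 Df11 Rel11 S11Rel)
open Pool.Agent.Helper4.P11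

section

variable {r s : ℕ}

/-- the three functions -/
private noncomputable def P (r s : ℕ) (G : ℤ → ℤ → ZMod 11) : Fin 3 → Fn11 (11 ^ r) (11 ^ s) :=
  fun f => pf11 G f

private theorem lw_pow (hl : S11Low0) {O : Module.End (ZMod 11) (Fn11 (11 ^ r) (11 ^ s))} {k : ℤ}
    (hO : Lw O k) (n : ℕ) : Lw (O ^ n) (k * n) := by
  obtain ⟨hm, -, -, -, -, h1, -⟩ := hl r s
  induction n with
  | zero => simpa using h1
  | succ n ih =>
    rw [pow_succ]
    have := hm _ _ _ _ ih hO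
    rwa [show k * n + k = k * (n + 1 : ℕ) by push_cast; ring] at this

private theorem lw_mono (hl : S11Low0) (a b : ℕ) :
    Lw (dX ^ a * dY ^ b : Module.End (ZMod 11) (Fn11 (11 ^ r) (11 ^ s))) ((a : ℤ) + b) := by
  obtain ⟨hm, -, -, -, -, -, hx, hy, -⟩ := hl r s
  have h1 := hm _ _ _ _ (lw_pow hl hx a) (lw_pow hl hy b)
  rwa [one_mul, one_mul] at h1

private theorem lw_Q (hl : S11Low0) : Lw (QoM : Module.End (ZMod 11) (Fn11 (11 ^ r) (11 ^ s))) 2 := by
  have h := lw_mono (r := r) (s := s) hl 1 1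
  norm_num at h
  exact h

private theorem lw_L (hl : S11Low0) : Lw (LoM : Module.End (ZMod 11) (Fn11 (11 ^ r) (11 ^ s))) 12 := by
  have h1 := lw_mono (r := r) (s := s) hl 11 1
  have h3 := lw_mono (r := r) (s := s) hl 1 11
  norm_num at h1 h3
  exact (hl r s).2.1 _ _ _ h1 h3

private theorem lw_M (hl : S11Low0) (c f : ℕ) :
    Lw (MoM c f : Module.End (ZMod 11) (Fn11 (11 ^ r) (11 ^ s))) (nOM c : ℤ) := by
  unfold MoM
  refine Finset.sum_induction _ (fun O => Lw O (nOM c : ℤ)) ?_ ?_ ?_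
  · exact fun O O' h h' => (hl r s).2.1 _ _ _ h h'
  · exact fun d F _ => Submodule.zero_mem _
  · intro i hi
    rw [Finset.mem_range] at hi
    have h := (hl r s).2.2.1 _ ((qOM c f i : ℤ) : ZMod 11) _
      (lw_mono (r := r) (s := s) hl (nOM c - i) i)
    have e : ((nOM c - i : ℕ) : ℤ) + i = nOM c := by
      rw [← Nat.cast_add]
      congr 1
      omega
    rwa [e] at h

private theorem stepL (hl : S11Low0) {O : Module.End (ZMod 11) (Fn11 (11 ^ r) (11 ^ s))} {k e : ℤ}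
    (hO : Lw O k) {F H F' : Fn11 (11 ^ r) (11 ^ s)} (hF : F ∈ Wd11 e) (hH : F - H ∈ Wd11 (e - 1))
    (hF' : F' - O F ∈ Wd11 (e - k - 1)) : F' ∈ Wd11 (e - k) ∧ F' - O H ∈ Wd11 (e - k - 1) := by
  have hmono := (hl r s).2.2.2.2.1
  have h1 : O F ∈ Wd11 (e - k) := hO e F hF
  have h2 : O (F - H) ∈ Wd11 (e - k - 1) := by
    have := hO (e - 1) _ hH
    rwa [show e - 1 - k = e - k - 1 by ring] at this
  constructor
  · have h3 := Submodule.add_mem _ (hmono _ _ (by linarith) hF') h1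
    rwa [sub_add_cancel] at h3
  · have h3 := Submodule.add_mem _ hF' h2
    rwa [map_sub, sub_add_sub_cancel] at h3

/-- the state -/
private def St (r s : ℕ) (e : ℤ) (G : ℤ → ℤ → ZMod 11) (H : Fin 3 → Fn11 (11 ^ r) (11 ^ s)) : Prop :=
  SymP 11 r (s + 1) G ∧ ∀ f : Fin 3, P r s G f ∈ Wd11 e ∧ P r s G f - H f ∈ Wd11 (e - 1)

private theorem okU : ∀ t ∈ UW, ∀ l ∈ t.2, l ∈ PrM := by decide

private theorem okV : ∀ t ∈ VW, ∀ l ∈ t.2, l ∈ PrM := by decide

private theorem okO : ∀ c ≤ 9, ∀ t ∈ OW c, ∀ l ∈ t.2, l ∈ PrM := by decide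

private theorem stU (hr : S11Rel) (hs : TStp) (hl : S11Low0) (hu : TLdU)
    {e : ℤ} {G : ℤ → ℤ → ZMod 11} {H : Fin 3 → Fn11 (11 ^ r) (11 ^ s)} (h : St r s e G H) :
    St r s (e - 2) (cO UW (11 ^ r) G) (fun f => QoM (H f)) := by
  obtain ⟨hG, hF⟩ := h
  obtain ⟨sU, pU⟩ := (hs r s G hG).1 UW okU
  have hR : Rel11 (P r s G) := hr (ZMod 11) _ r s G hG
  refine ⟨sU, fun f => ?_⟩
  have l1 := hu r s e (P r s G) hR (fun f => (hF f).1) f
  have e1 : P r s (cO UW (11 ^ r) G) f = ∑ g : Fin 3, opL (cL UW f g) (P r s G g) := pU f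
  rw [← e1, show e - 3 = e - 2 - 1 by ring] at l1
  exact stepL hl (lw_Q hl) (hF f).1 (hF f).2 l1

private theorem stV (hr : S11Rel) (hs : TStp) (hl : S11Low0) (hv : TLdV)
    {e : ℤ} {G : ℤ → ℤ → ZMod 11} {H : Fin 3 → Fn11 (11 ^ r) (11 ^ s)} (h : St r s e G H) :
    St r s (e - 12) (cO VW (11 ^ r) G) (fun f => LoM (H f)) := by
  obtain ⟨hG, hF⟩ := h
  obtain ⟨sV, pV⟩ := (hs r s G hG).1 VW okV
  have hR : Rel11 (P r s G) := hr (ZMod 11) _ r s G hG
  refine ⟨sV, fun f => ?_⟩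
  have l1 := hv r s e (P r s G) hR (fun f => (hF f).1) f
  have e1 : P r s (cO VW (11 ^ r) G) f = ∑ g : Fin 3, opL (cL VW f g) (P r s G g) := pV f
  rw [← e1, show e - 13 = e - 12 - 1 by ring] at l1
  exact stepL hl (lw_L hl) (hF f).1 (hF f).2 l1

private theorem itU (hr : S11Rel) (hs : TStp) (hl : S11Low0) (hu : TLdU)
    {e : ℤ} {G : ℤ → ℤ → ZMod 11} {H : Fin 3 → Fn11 (11 ^ r) (11 ^ s)} (h : St r s e G H) (i : ℕ) :
    St r s (e - 2 * i) ((cO UW (11 ^ r))^[i] G)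
      (fun f => (QoM ^ i : Module.End (ZMod 11) (Fn11 (11 ^ r) (11 ^ s))) (H f)) := by
  induction i with
  | zero => simpa using h
  | succ i ih =>
    have h4 := stU hr hs hl hu ih
    have hp : (QoM ^ (i + 1) : Module.End (ZMod 11) (Fn11 (11 ^ r) (11 ^ s))) = QoM * QoM ^ i :=
      pow_succ' _ _
    have e2 : e - 2 * ((i + 1 : ℕ) : ℤ) = e - 2 * i - 2 := by push_cast; ring
    rw [Function.iterate_succ_apply', hp, e2]
    exact h4

private theorem itV (hr : S11Rel) (hs : TStp) (hl : S11Low0) (hv : TLdV)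
    {e : ℤ} {G : ℤ → ℤ → ZMod 11} {H : Fin 3 → Fn11 (11 ^ r) (11 ^ s)} (h : St r s e G H) (j : ℕ) :
    St r s (e - 12 * j) ((cO VW (11 ^ r))^[j] G)
      (fun f => (LoM ^ j : Module.End (ZMod 11) (Fn11 (11 ^ r) (11 ^ s))) (H f)) := by
  induction j with
  | zero => simpa using h
  | succ j ih =>
    have h4 := stV hr hs hl hv ih
    have hp : (LoM ^ (j + 1) : Module.End (ZMod 11) (Fn11 (11 ^ r) (11 ^ s))) = LoM * LoM ^ j :=
      pow_succ' _ _
    have e2 : e - 12 * ((j + 1 : ℕ) : ℤ) = e - 12 * j - 12 := by push_cast; ring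
    rw [Function.iterate_succ_apply', hp, e2]
    exact h4

private theorem kill (hl : S11Low0) {O : Module.End (ZMod 11) (Fn11 (11 ^ r) (11 ^ s))} {k e : ℤ}
    (hO : Lw O k) {F : Fn11 (11 ^ r) (11 ^ s)} (hF : F ∈ Wd11 e) (h : e < k) : O F = 0 := by
  have hmono := (hl r s).2.2.2.2.1
  have hz : ∀ F : Fn11 (11 ^ r) (11 ^ s), F ∈ Wd11 (-1) → F = 0 :=
    (hl r s).2.2.2.2.2.2.2.2.2.2.2.2.2
  exact hz _ (hmono _ (-1) (by linarith [Int.add_one_le_of_lt h]) (hO e F hF))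

private theorem dg_eq (c i j : ℕ) : dgM c i j = nOM c + 2 * i + 12 * j := by
  unfold dgM nOM
  omega

end

/-- **ITR.** -/
theorem hItr (hr : S11Rel) (hs : TStp) (hu : TLdU) (hv : TLdV) (ho : TOm) : TItr := by
  have hl : S11Low0 := low0
  intro r s G d hG hF0 c i j hc
  have hmono := (hl r s).2.2.2.2.1
  have h0 : St r s (d : ℤ) G (P r s G) := by
    refine ⟨hG, fun f => ⟨hF0 f, ?_⟩⟩
    rw [sub_self]
    exact Submodule.zero_mem _
  have hK := itU hr hs hl hu (itV hr hs hl hv h0 j) i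
  set K : ℤ → ℤ → ZMod 11 := (cO UW (11 ^ r))^[i] ((cO VW (11 ^ r))^[j] G) with hKd
  obtain ⟨kG, kF⟩ := hK
  have kR : Rel11 (P r s K) := hr (ZMod 11) _ r s K kG
  obtain ⟨hW, hval⟩ := hs r s K kG
  have hO := (hW (OW c) (okO c hc)).2
  have ev : evM (11 ^ r) G c i j = P r s (cO (OW c) (11 ^ r) K) 0 0 0 :=
    (hval (cO (OW c) (11 ^ r) K)).symm
  have hOc : P r s (cO (OW c) (11 ^ r) K) 0 = ∑ f : Fin 3, opL (cL (OW c) 0 f) (P r s K f) := hO 0
  have evM' : (d : ℤ) - 12 * j - 2 * i ≤ nOM c →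
      evM (11 ^ r) G c i j = ∑ f : Fin 3, (MoM c f.val (P r s K f)) 0 0 := by
    intro h4
    rw [ev, hOc]
    exact ho r s c (P r s K) hc kR (fun f => hmono _ _ h4 (kF f).1)
  have hdg := dg_eq c i j
  refine ⟨fun hlt => ?_, fun heq => ?_⟩
  · have hlt' : (d : ℤ) - 12 * j - 2 * i < nOM c := by
      rw [hdg] at hlt
      have : (d : ℤ) < nOM c + 2 * i + 12 * j := by exact_mod_cast hlt
      linarith
    rw [evM' hlt'.le]
    refine Finset.sum_eq_zero fun f _ => ?_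
    rw [kill hl (lw_M hl c f.val) (kF f).1 hlt']
    rfl
  · have heq' : (d : ℤ) - 12 * j - 2 * i = nOM c := by
      rw [hdg] at heq
      have : (nOM c + 2 * i + 12 * j : ℤ) = d := by exact_mod_cast heq
      linarith
    rw [evM' heq'.le]
    refine Finset.sum_congr rfl fun f _ => ?_
    have h1 := kill hl (lw_M hl c f.val) (kF f).2 (by linarith)
    rw [map_sub, sub_eq_zero] at h1
    rw [h1]
    rfl

end Pool.Agent.Helper45.P11
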