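import Pool.Agent.Helper76.P11.StC

/-!
# Project P11 (levels `11^n`), module DIME: the dimension of `subE`

Adapted from `Pool/Agent/Helper39/Q5P7/M_DIME.lean`.
-/

set_option autoImplicit false

namespace Pool.Agent.Helper45.P11

open Pool.Agent.Helper14.CV (Homog EqC act Tl)
open Pool.Agent.Helper28.WK (SymP)
open Pool.Agent.Helper14.W5 (NewSymP NSP)
open Pool.Agent.Helper76.P11

section lin

variable {W W' : Type} [AddCommGroup W] [Module ℂ W] [FiniteDimensional ℂ W] [AddCommGroup W']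
  [Module ℂ W']

private theorem rn (f : W →ₗ[ℂ] W') (V : Submodule ℂ W) :
    Module.finrank ℂ (V.map f) + Module.finrank ℂ ↥(V ⊓ LinearMap.ker f) =
      Module.finrank ℂ V := by
  have h := LinearMap.finrank_range_add_finrank_ker (f.domRestrict V)
  rw [LinearMap.range_domRestrict, LinearMap.ker_domRestrict] at h
  have h2 : Module.finrank ℂ ↥((LinearMap.ker f).comap V.subtype) =
      Module.finrank ℂ ↥(V ⊓ LinearMap.ker f) := by
    rw [← Submodule.map_comap_subtype, Submodule.finrank_map_subtype_eq]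
  rw [h2] at h
  exact h

end lin

section lin2

variable {W W' : Type} [AddCommGroup W] [Module ℂ W] [FiniteDimensional ℂ W] [AddCommGroup W']
  [Module ℂ W'] [FiniteDimensional ℂ W']

private theorem fr_prod (V : Submodule ℂ W) (V' : Submodule ℂ W') :
    Module.finrank ℂ ↥(V.prod V') = Module.finrank ℂ V + Module.finrank ℂ V' := by
  have h1 : V.prod V' = LinearMap.range (V.subtype.prodMap V'.subtype) := by
    rw [LinearMap.range_prodMap, Submodule.range_subtype, Submodule.range_subtype]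
  rw [h1, LinearMap.finrank_range_of_inj, Module.finrank_prod]
  rintro ⟨a, b⟩ ⟨a', b'⟩ h
  simp only [LinearMap.prodMap_apply, Submodule.subtype_apply, Prod.mk.injEq,
    SetLike.coe_eq_coe] at h
  rw [h.1, h.2]

end lin2

private theorem pw0 {m : ℕ} (hm : 1 ≤ m) : (11 : ZMod (11 ^ m)) * 11 ^ (m - 1) = 0 := by
  rw [← pow_succ', Nat.sub_add_cancel hm]
  have h3 := ZMod.natCast_self (11 ^ m)
  push_cast at h3
  exact h3

private theorem red {m : ℕ} (hm : 1 ≤ m) (t : ℤ) :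
    (t : ZMod (11 ^ m)) * 11 ^ (m - 1) = ((t : ZMod 11).val : ZMod (11 ^ m)) * 11 ^ (m - 1) := by
  have h1 : ((t : ZMod 11).val : ℤ) = t % 11 := by
    rw [ZMod.val_intCast]
    norm_num
  have h2 : (((t : ZMod 11).val : ℕ) : ZMod (11 ^ m)) = ((t % 11 : ℤ) : ZMod (11 ^ m)) := by
    rw [← h1]
    push_cast
    rfl
  rw [h2]
  have h3 : t = t % 11 + 11 * (t / 11) := (Int.emod_add_mul_ediv t 11).symm
  have h4 : (t : ZMod (11 ^ m)) = ((t % 11 : ℤ) : ZMod (11 ^ m)) + 11 * ((t / 11 : ℤ) : ZMod (11 ^ m)) := by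
    conv_lhs => rw [h3]
    push_cast
    ring
  rw [h4]
  linear_combination ((t / 11 : ℤ) : ZMod (11 ^ m)) * pw0 hm

private theorem sum_zmod (g : ℕ → ℂ) :
    ∑ i ∈ Finset.range 11, g i = ∑ z : ZMod 11, g z.val := by
  have : ∀ h : ZMod 11 → ℂ, ∑ z : ZMod 11, h z = ∑ i : Fin 11, h i := fun h => rfl
  rw [Finset.sum_range, this]
  rfl

private theorem sum_s {m : ℕ} (hm : 1 ≤ m) (s : ℤ) (hs : ¬ (11 : ℤ) ∣ s)
    (g : ZMod (11 ^ m) → ℂ) :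
    ∑ i ∈ Finset.range 11, g (s * ((i : ZMod (11 ^ m)) * 11 ^ (m - 1))) =
      ∑ i ∈ Finset.range 11, g ((i : ZMod (11 ^ m)) * 11 ^ (m - 1)) := by
  have hf : Fact (Nat.Prime 11) := ⟨by norm_num⟩
  have hs0 : (s : ZMod 11) ≠ 0 := by
    intro h
    exact hs ((ZMod.intCast_zmod_eq_zero_iff_dvd s 11).1 h)
  rw [sum_zmod (fun i => g (s * ((i : ZMod (11 ^ m)) * 11 ^ (m - 1)))),
    sum_zmod (fun i => g ((i : ZMod (11 ^ m)) * 11 ^ (m - 1)))]
  refine Fintype.sum_equiv (Equiv.mulLeft₀ (s : ZMod 11) hs0) _ _ fun z => ?_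
  have h1 := red hm (s * (z.val : ℤ))
  have h2 : ((s * (z.val : ℤ) : ℤ) : ZMod 11) = (s : ZMod 11) * z := by
    push_cast
    rw [ZMod.natCast_zmod_val]
  rw [h2] at h1
  change g (s * ((z.val : ZMod (11 ^ m)) * 11 ^ (m - 1))) =
    g ((((s : ZMod 11) * z).val : ZMod (11 ^ m)) * 11 ^ (m - 1))
  rw [← h1]
  congr 1
  push_cast
  ring

private theorem anti_s {m : ℕ} (hm : 1 ≤ m) {F : Pt m → ℂ} (hF : F ∈ anti11 m) (s : ℤ)
    (hs : ¬ (11 : ℤ) ∣ s) (x y : ZMod (11 ^ m)) :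
    ∑ i ∈ Finset.range 11, F (x + s * (i * 11 ^ (m - 1)), y) = 0 ∧
      ∑ i ∈ Finset.range 11, F (x, y + s * (i * 11 ^ (m - 1))) = 0 := by
  obtain ⟨h1, h2⟩ := hF (x, y)
  constructor
  · rw [sum_s hm s hs (fun t => F (x + t, y))]
    exact h1
  · rw [sum_s hm s hs (fun t => F (x, y + t))]
    exact h2

private theorem dv_step {m : ℕ} (hm : 1 ≤ m) {s : ℤ} {φ : ZMod (11 ^ m) → ZMod (11 ^ m)}
    (h : Dv s φ) (x : ZMod (11 ^ m)) (i : ℕ) :
    φ (x + i * 11 ^ (m - 1)) = φ x + s * (i * 11 ^ (m - 1)) := by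
  have h1 := h (m - 1) (x + i * 11 ^ (m - 1)) x ⟨i, by ring⟩
  have h2 : (11 : ZMod (11 ^ m)) ^ (m - 1 + 1) = 0 := by
    rw [Nat.sub_add_cancel hm]
    have h3 := ZMod.natCast_self (11 ^ m)
    push_cast at h3
    exact h3
  rw [h2, zero_dvd_iff] at h1
  linear_combination h1

private theorem anti_comp {m n : ℕ} (hm : 1 ≤ m) {r : Pt m → Pt m} (hr : Ty n r) {F : Pt m → ℂ}
    (hF : F ∈ anti11 m) : (fun p => F (r p)) ∈ anti11 m := by
  rcases hr with ⟨_, s, s', φ, φ', hs, _, hs', _, hφ, hφ', hr⟩ | ⟨_, s, s', ψ, ψ', hs, hs', hψ, hψ', hr⟩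
  · intro p
    simp only [hr, dv_step hm hφ, dv_step hm hφ']
    exact ⟨(anti_s hm hF s hs (φ p.1) (φ' p.2)).1, (anti_s hm hF s' hs' (φ p.1) (φ' p.2)).2⟩
  · intro p
    simp only [hr, dv_step hm hψ, dv_step hm hψ']
    exact ⟨(anti_s hm hF s' hs' (ψ p.2) (ψ' p.1)).2, (anti_s hm hF s hs (ψ p.2) (ψ' p.1)).1⟩


private theorem n1 : (((-1 : ℤ) : ℂ)) = -1 := by push_cast; rfl
private theorem p1 : (((1 : ℤ) : ℂ)) = 1 := by push_cast; rfl


/-- The two relations as linear maps. -/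
private def K8 {m : ℕ} : Fn9 m →ₗ[ℂ] (Pt m → ℂ) where
  toFun F p := alt ng sw F.1.1.1.1 p
  map_add' F F' := by
    funext p
    simp only [alt, Prod.fst_add, Pi.add_apply]
    ring
  map_smul' c F := by
    funext p
    simp only [alt, Prod.smul_fst, Pi.smul_apply, smul_eq_mul, RingHom.id_apply]
    ring

private def K9 {m : ℕ} : Fn9 m →ₗ[ℂ] (Pt m → ℂ) where
  toFun F p := alt (dR 1) c5 (ssF F.1.1.1.1 F.1.1.1.2 F.1.1.2.1 F.1.1.2.2 F.1.2.1.1 F.1.2.1.2 F.1.2.2.1 F.1.2.2.2 F.2) p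
  map_add' F F' := by
    funext p
    simp only [alt, ssF, bbF, nnF, Prod.fst_add, Prod.snd_add, Pi.add_apply]
    ring
  map_smul' c F := by
    funext p
    simp only [alt, ssF, bbF, nnF, Prod.smul_fst, Prod.smul_snd, Pi.smul_apply, smul_eq_mul,
      RingHom.id_apply]
    ring

private theorem K8_apply {m : ℕ} (F : Fn9 m) (p : Pt m) : K8 F p = alt ng sw F.1.1.1.1 p := rfl

private theorem K9_apply {m : ℕ} (F : Fn9 m) (p : Pt m) : K9 F p =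
    alt (dR 1) c5 (ssF F.1.1.1.1 F.1.1.1.2 F.1.1.2.1 F.1.1.2.2 F.1.2.1.1 F.1.2.1.2 F.1.2.2.1 F.1.2.2.2 F.2) p := rfl

private theorem nn_mem {m : ℕ} (hm : 1 ≤ m) (hg : Ty 1 (gE : Pt m → Pt m)) {F2 F3 N A : Pt m → ℂ}
    (h2 : F2 ∈ anti11 m) (h3 : F3 ∈ anti11 m) (hN : N ∈ anti11 m) (hA : A ∈ anti11 m) :
    nnF F2 F3 N A ∈ anti11 m := by
  have e : nnF F2 F3 N A = N + (fun p => F2 (gE p)) - (fun p => F3 (gE p)) - (fun p => A (gE p)) := rfl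
  rw [e]
  exact Submodule.sub_mem _ (Submodule.sub_mem _ (Submodule.add_mem _ hN (anti_comp hm hg h2))
    (anti_comp hm hg h3)) (anti_comp hm hg hA)

private theorem bb_mem {m : ℕ} (hm : 1 ≤ m) (hg : Ty 1 (gE : Pt m → Pt m)) {F1 F2 F3 N A B : Pt m → ℂ}
    (h1 : F1 ∈ anti11 m) (h2 : F2 ∈ anti11 m) (h3 : F3 ∈ anti11 m) (hN : N ∈ anti11 m)
    (hA : A ∈ anti11 m) (hB : B ∈ anti11 m) : bbF F1 F2 F3 N A B ∈ anti11 m := by
  have e : bbF F1 F2 F3 N A B = F1 - F2 - nnF F2 F3 N A - B := rfl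
  rw [e]
  exact Submodule.sub_mem _ (Submodule.sub_mem _ (Submodule.sub_mem _ h1 h2) (nn_mem hm hg h2 h3 hN hA)) hB

private theorem ss_mem {m : ℕ} (hm : 1 ≤ m) (hg : Ty 1 (gE : Pt m → Pt m)) (hD' : Ty 0 (gD : Pt m → Pt m))
    (hF' : Ty 1 (gF : Pt m → Pt m)) {F1 F2 F3 N A B C K D : Pt m → ℂ}
    (h1 : F1 ∈ anti11 m) (h2 : F2 ∈ anti11 m) (h3 : F3 ∈ anti11 m) (hN : N ∈ anti11 m)
    (hA : A ∈ anti11 m) (hB : B ∈ anti11 m) (hC : C ∈ anti11 m) (hK : K ∈ anti11 m)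
    (hD : D ∈ anti11 m) : ssF F1 F2 F3 N A B C K D ∈ anti11 m := by
  have e : ssF F1 F2 F3 N A B C K D = F3 - K - (fun p => D (gD p)) - C -
    (fun p => bbF F1 F2 F3 N A B (gF p)) := rfl
  rw [e]
  exact Submodule.sub_mem _ (Submodule.sub_mem _ (Submodule.sub_mem _ (Submodule.sub_mem _ h3 hK)
    (anti_comp hm hD' hD)) hC) (anti_comp hm hF' (bb_mem hm hg h1 h2 h3 hN hA hB))

private theorem alt_mem {m n n' n'' : ℕ} (hm : 1 ≤ m) {r r' : Pt m → Pt m} (hk : Kl r r') (h : Ty n r)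
    (h' : Ty n' r') (h'' : Ty n'' (fun p => r (r' p))) {F : Pt m → ℂ} (hF : F ∈ anti11 m) :
    (fun p => alt r r' F p) ∈ inv11 (m := m) r r' (-1) 1 := by
  refine ⟨?_, fun p => ⟨?_, ?_⟩⟩
  · have e : (fun p => alt r r' F p) = F + (fun p => F (r' p)) - (fun p => F (r p)) -
      (fun p => F (r (r' p))) := rfl
    rw [e]
    exact Submodule.sub_mem _ (Submodule.sub_mem _ (Submodule.add_mem _ hF (anti_comp hm h' hF))
      (anti_comp hm h hF)) (anti_comp hm h'' hF)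
  · change alt r r' F (r p) = -1 * alt r r' F p
    unfold alt
    rw [← hk.2.2 p, hk.1 p, hk.1 (r' p)]
    ring
  · change alt r r' F (r' p) = 1 * alt r r' F p
    unfold alt
    rw [hk.2.1 p]
    ring

/-- **Module DIME.** -/
theorem hDimE : StHDimE := by
  intro ht hk hs m hm
  obtain ⟨⟨a1, a2, a3, a4⟩, -, -, ⟨c1, c2, c3, c4⟩, ⟨⟨N1, N2⟩, ⟨K1, K2⟩, ⟨A1, A2⟩, ⟨B1, B2⟩, ⟨C1, C2⟩, ⟨D1, D2⟩⟩,
    gDt, gEt, gFt⟩ := ht m
  obtain ⟨eV, q1, q2⟩ := hk m hm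
  have eN := q1 cN (-1) N1 N2 (Or.inr rfl)
  have eA := q1 cA (-1) A1 A2 (Or.inr rfl)
  have eB := q1 cB (-1) B1 B2 (Or.inr rfl)
  have eK := q1 cK (-1) K1 K2 (Or.inr rfl)
  have eC := q1 rC 1 C1 C2 (Or.inl rfl)
  have eD := q1 rD 1 D1 D2 (Or.inl rfl)
  have e0 := q2 ng sw 0 1 1 (-1) 1 a1 a2 a3 a4 (Or.inr rfl) (Or.inl rfl)
  have e5 := q2 (dR 1) c5 0 1 1 (-1) 1 c1 c2 c3 c4 (Or.inr rfl) (Or.inl rfl)
  rw [n1] at eN eA eB eK
  rw [p1] at eC eD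
  rw [n1, p1] at e0 e5
  set VN := inv1 (m := m) cN (-1) with hVN
  set VA := inv1 (m := m) cA (-1) with hVA
  set VB := inv1 (m := m) cB (-1) with hVB
  set VK := inv1 (m := m) cK (-1) with hVK
  set VC := inv1 (m := m) rC 1 with hVC
  set VD := inv1 (m := m) rD 1 with hVD
  set T0 := inv11 (m := m) ng sw (-1) 1 with hT0
  set T5 := inv11 (m := m) (dR 1) c5 (-1) 1 with hT5
  set Q : Fn9 m →ₗ[ℂ] ((Pt m → ℂ) × (Pt m → ℂ)) := LinearMap.prod K8 K9 with hQ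
  have hQa : ∀ F, Q F = (K8 F, K9 F) := fun _ => rfl
  have hmap : (((((anti11 m).prod (anti11 m)).prod ((anti11 m).prod VN)).prod
      ((VA.prod VB).prod (VC.prod VK))).prod VD).map Q = T0.prod T5 := by
    apply le_antisymm
    · rintro _ ⟨F, hF, rfl⟩
      obtain ⟨⟨⟨⟨h1, h2⟩, h3, hN⟩, ⟨hA, hB⟩, hC, hK⟩, hD⟩ := hF
      rw [hQa]
      exact ⟨alt_mem hm a1 a2 a3 a4 h1, alt_mem hm c1 c2 c3 c4
        (ss_mem hm gEt gDt gFt h1 h2 h3 hN.1 hA.1 hB.1 hC.1 hK.1 hD.1)⟩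
    · rintro ⟨φ, ψ⟩ ⟨hφ, hψ⟩
      simp only at hφ hψ
      have k1 : ∀ p, φ (ng p) = -1 * φ p := fun p => (hφ.2 p).1
      have k2 : ∀ p, φ (sw p) = 1 * φ p := fun p => (hφ.2 p).2
      have k3 : ∀ p, ψ (dR 1 p) = -1 * ψ p := fun p => (hψ.2 p).1
      have k4 : ∀ p, ψ (c5 p) = 1 * ψ p := fun p => (hψ.2 p).2
      obtain ⟨u, hud⟩ : ∃ u : Pt m → ℂ, u = ((4 : ℂ)⁻¹) • φ := ⟨_, rfl⟩
      obtain ⟨v, hvd⟩ : ∃ v : Pt m → ℂ, v = ((4 : ℂ)⁻¹) • ψ := ⟨_, rfl⟩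
      have hu : u ∈ anti11 m := by
        rw [hud]
        exact Submodule.smul_mem _ _ hφ.1
      have hv : v ∈ anti11 m := by
        rw [hvd]
        exact Submodule.smul_mem _ _ hψ.1
      have hup : ∀ p, u p = 4⁻¹ * φ p := fun p => by rw [hud]; rfl
      have hvp : ∀ p, v p = 4⁻¹ * ψ p := fun p => by rw [hvd]; rfl
      obtain ⟨f1, hf1, l1, hl1, fn1, ld1, uu⟩ := hs 1 m hm u hu
      obtain ⟨f2, hf2, l2, hl2, fn2, ld2, vv⟩ := hs 1 m hm v hv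
      have hG : l1 + f2 ∈ anti11 m := Submodule.add_mem _ hl1 hf2
      refine ⟨((((l1 + f2, l1 + f2), (l1 + f2, 0)), ((0, 0), (0, 0))), 0),
        ⟨⟨⟨⟨⟨hG, hG⟩, hG, Submodule.zero_mem _⟩, ⟨Submodule.zero_mem _, Submodule.zero_mem _⟩,
          Submodule.zero_mem _, Submodule.zero_mem _⟩, Submodule.zero_mem _⟩, ?_⟩⟩
      rw [hQa, Prod.mk.injEq]
      refine ⟨?_, ?_⟩
      · funext p
        rw [K8_apply]
        simp only [alt, Pi.add_apply]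
        have z1 := uu p
        have z2 := uu (sw p)
        have z3 := uu (ng p)
        have z4 := uu (ng (sw p))
        rw [hup] at z1 z2 z3 z4
        rw [k2] at z2
        rw [k1, fn1] at z3
        rw [k1, k2, fn1] at z4
        rw [fn2 p, fn2 (sw p)]
        linear_combination z1 + z2 - z3 - z4
      · funext p
        rw [K9_apply]
        simp only [alt, ssF, bbF, nnF, Pi.add_apply, Pi.zero_apply]
        have z1 := vv p
        have z2 := vv (c5 p)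
        have z3 := vv (dR 1 p)
        have z4 := vv (dR 1 (c5 p))
        rw [hvp] at z1 z2 z3 z4
        rw [k4] at z2
        rw [k3, ld2] at z3
        rw [k3, k4, ld2] at z4
        rw [ld1 p, ld1 (c5 p)]
        linear_combination z1 + z2 - z3 - z4
  have hker : (((((anti11 m).prod (anti11 m)).prod ((anti11 m).prod VN)).prod
      ((VA.prod VB).prod (VC.prod VK))).prod VD) ⊓ LinearMap.ker Q = subE m := by
    ext F
    constructor
    · rintro ⟨⟨⟨⟨⟨h1, h2⟩, h3, h4⟩, ⟨h5, h6⟩, h7, h8⟩, h9⟩, h13⟩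
      rw [SetLike.mem_coe, LinearMap.mem_ker, hQa, Prod.mk_eq_zero] at h13
      obtain ⟨k8, k9⟩ := h13
      exact ⟨⟨h1, h2, h3, h4⟩, ⟨h5, h6, h7, h8, h9⟩, fun p => congrFun k8 p, fun p => congrFun k9 p⟩
    · rintro ⟨⟨h1, h2, h3, h4⟩, ⟨h5, h6, h7, h8, h9⟩, k8, k9⟩
      refine ⟨⟨⟨⟨⟨h1, h2⟩, h3, h4⟩, ⟨h5, h6⟩, h7, h8⟩, h9⟩, ?_⟩
      rw [SetLike.mem_coe, LinearMap.mem_ker, hQa, Prod.mk_eq_zero]
      exact ⟨funext k8, funext k9⟩
  have i1 : FiniteDimensional ℂ ((Pt m → ℂ) × (Pt m → ℂ)) := inferInstance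
  have i2 : FiniteDimensional ℂ (((Pt m → ℂ) × (Pt m → ℂ)) × ((Pt m → ℂ) × (Pt m → ℂ))) :=
    Module.Finite.prod
  have i3 : FiniteDimensional ℂ ((((Pt m → ℂ) × (Pt m → ℂ)) × ((Pt m → ℂ) × (Pt m → ℂ))) ×
      (((Pt m → ℂ) × (Pt m → ℂ)) × ((Pt m → ℂ) × (Pt m → ℂ)))) := Module.Finite.prod
  have i4 : FiniteDimensional ℂ (Fn9 m) := Module.Finite.prod
  have h6 := rn Q (((((anti11 m).prod (anti11 m)).prod ((anti11 m).prod VN)).prod
      ((VA.prod VB).prod (VC.prod VK))).prod VD)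
  rw [hmap, hker] at h6
  simp only [fr_prod] at h6
  have hba : 11 ^ (m - 1) ≤ 121 ^ (m - 1) := Nat.pow_le_pow_left (by norm_num) _
  obtain ⟨a, ha⟩ : ∃ a : ℕ, a = 121 ^ (m - 1) := ⟨_, rfl⟩
  obtain ⟨b, hb⟩ : ∃ b : ℕ, b = 11 ^ (m - 1) := ⟨_, rfl⟩
  have haz : (121 : ℤ) ^ (m - 1) = (a : ℤ) := by rw [ha]; push_cast; rfl
  have hbz : (11 : ℤ) ^ (m - 1) = (b : ℤ) := by rw [hb]; push_cast; rfl
  rw [haz, hbz] at eN eA eB eK eC eD e0 e5
  rw [← ha] at eV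
  rw [← ha, ← hb] at hba ⊢
  push_cast at e0 e5
  omega

end Pool.Agent.Helper45.P11
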